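import Pool.Agent.W23.KS.Defs
import Pool.Agent.W82.KT.PBK
import Pool.Agent.W655.PL.PBX

/-! KS-PBXK (owner helper23): pointwise bounds for products of `k` forms, explicit constants. -/

set_option autoImplicit false

namespace Pool.Agent.W216.KS

open Finset
open Pool.Agent.H442R2
open Pool.Agent.H442R2.KF
open Pool.Agent.W23.DC
open Pool.Agent.W23.SG
open Pool.Agent.W23.PL
open Pool.Agent.W23.KT
open Pool.Agent.W23.KS
open Pool.Agent.W82.KT

theorem PBXK : St_PBXK := by
  intro k M
  obtain ⟨C, hC0, hRA⟩ := Pool.Agent.W655.PL.Pbx.RA'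
  have hk1 : (0 : ℝ) ≤ k := Nat.cast_nonneg k
  have hlk : 0 ≤ Real.log ((k : ℝ) + 1) := Real.log_nonneg (by linarith)
  set G : ℝ := (((M + 1) * k : ℕ) : ℝ) + Real.log ((k : ℝ) + 1) with hG
  have hG0 : 0 ≤ G := by positivity
  refine ⟨G + 4 * C + 6, by positivity, ?_⟩
  intro ε hε hε1
  refine ⟨max ⌈Real.exp (4 * k / ε)⌉₊ 2, ?_⟩
  intro N X hN hX S hS c hc n
  have hNe : Real.exp (4 * k / ε) ≤ (N : ℝ) := Nat.ceil_le.mp ((le_max_left _ _).trans hN)
  have hN2 : 2 ≤ N := (le_max_right _ _).trans hN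
  have hN1 : (1 : ℝ) ≤ N := by exact_mod_cast (by omega : 1 ≤ N)
  have hB : (1 : ℝ) ≤ 1 + |(n : ℝ)| / N := by
    have : 0 ≤ |(n : ℝ)| / N := by positivity
    linarith
  have hBr : (1 : ℝ) ≤ (1 + |(n : ℝ)| / N) ^ (1 / 4 : ℝ) := Real.one_le_rpow hB (by norm_num)
  have h1e : 1 ≤ 1 / ε := by rw [le_div_iff₀ hε]; linarith
  have hK2 : (4 : ℝ) ^ (1 / ε) ≤ Real.exp ((4 * C + 4) / ε) := by
    rw [Real.rpow_def_of_pos (by norm_num)]
    apply Real.exp_le_exp.2
    have h4 : Real.log 4 ≤ 4 := by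
      have := Real.log_le_sub_one_of_pos (show (0 : ℝ) < 4 by norm_num)
      linarith
    rw [mul_one_div]
    apply div_le_div_of_nonneg_right _ hε.le
    linarith
  have hK3 : Real.exp (2 * (2 * C + |Real.log (ε / 2)|)) ≤ Real.exp ((4 * C + 4) / ε) := by
    apply Real.exp_le_exp.2
    have hlog : |Real.log (ε / 2)| ≤ 2 / ε := by
      have h1 : Real.log (ε / 2) ≤ 0 := Real.log_nonpos (by positivity) (by linarith)
      rw [abs_of_nonpos h1, ← Real.log_inv, inv_div]
      have := Real.log_le_sub_one_of_pos (show (0 : ℝ) < 2 / ε by positivity)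
      linarith
    have hCe : C ≤ C / ε := by
      rw [le_div_iff₀ hε]
      nlinarith
    have : (4 * C + 4) / ε = 4 * (C / ε) + 2 * (2 / ε) := by ring
    rw [this]
    linarith
  set K := Real.exp ((4 * C + 4) / ε) with hKdef
  have hKpos : 0 < K := Real.exp_pos _
  have hK1 : 1 ≤ K := Real.one_le_exp (by positivity)
  have h5 : ∑ d ∈ BX.roughs ((N : ℝ) ^ ε) X, 1 / (d : ℝ) ≤ 2 * K :=
    (sum_le_sum_of_subset_of_nonneg (BX.TaskPB.roughs_mono _ hX) fun _ _ _ => by positivity).trans
      ((hRA ε hε N hN2).trans (by linarith))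
  unfold rK
  split_ifs with hn
  · rw [abs_zero]
    positivity
  · have h1 := rd_card_le hε X ((M + 1) * k) k hN2 hNe hB hn (Fp_le hN1 hS n)
    have h4 := abs_RK_le (k := k) hε hN2 hX S c hc n
    have e0 : Real.exp (G / ε) = Real.exp (((((M + 1) * k : ℕ) : ℝ)) / ε) *
        ((k : ℝ) + 1) ^ (1 / ε) := by
      rw [Real.rpow_def_of_pos (by linarith), ← Real.exp_add, hG]
      congr 1
      ring
    have e1 : Real.exp (((((M + 1) * k : ℕ) : ℝ)) / ε) ≤ Real.exp (G / ε) := by
      apply Real.exp_le_exp.2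
      apply div_le_div_of_nonneg_right _ hε.le
      linarith
    have e2 : ((k : ℝ) + 1) ^ (1 / ε) ≤ Real.exp (G / ε) := by
      rw [Real.rpow_def_of_pos (by linarith)]
      apply Real.exp_le_exp.2
      rw [mul_one_div]
      apply div_le_div_of_nonneg_right _ hε.le
      have : (0 : ℝ) ≤ (((M + 1) * k : ℕ) : ℝ) := Nat.cast_nonneg _
      linarith
    have hGe : 0 < Real.exp (G / ε) := Real.exp_pos _
    have hfin : 3 * (Real.exp (G / ε) * K) ≤ Real.exp ((G + 4 * C + 6) / ε) := by
      have h3 : (3 : ℝ) ≤ Real.exp (2 / ε) := by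
        have h5 : 2 ≤ 2 / ε := by
          rw [le_div_iff₀ hε]; linarith
        have h6 := Real.add_one_le_exp (2 / ε)
        linarith
      calc 3 * (Real.exp (G / ε) * K) ≤ Real.exp (2 / ε) * (Real.exp (G / ε) * K) := by
            gcongr
        _ = Real.exp ((G + 4 * C + 6) / ε) := by
            rw [hKdef, ← Real.exp_add, ← Real.exp_add]; congr 1; ring
    set B := (1 + |(n : ℝ)| / N) ^ (1 / 4 : ℝ) with hBdef
    set E := Real.exp (G / ε) with hE
    have hEK : 0 < E * K := by positivity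
    calc |RK k c X S n| ≤ _ := h4
      _ ≤ E * B + E * (2 * K) := by
          refine add_le_add (h1.trans ?_) ?_
          · exact mul_le_mul_of_nonneg_right e1 (by linarith)
          · exact mul_le_mul e2 h5 (sum_nonneg fun _ _ => by positivity) hGe.le
      _ ≤ E * K * B + E * (2 * K) * B := by
          refine add_le_add ?_ ?_
          · apply mul_le_mul_of_nonneg_right _ (by linarith)
            nlinarith
          · nlinarith
      _ = 3 * (E * K) * B := by ring
      _ ≤ Real.exp ((G + 4 * C + 6) / ε) * B := by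
          apply mul_le_mul_of_nonneg_right hfin (by linarith)

end Pool.Agent.W216.KS
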