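import Pool.Agent.W23.KS.Defs
import Pool.Agent.W214.PL.SMO

/-! KS-SMOK (owner helper23): smooth parts of linear forms at sifted primes (Rankin's trick).
Adapted from `Pool.Agent.W214.PL.SMO` (helper214), whose lemmas are used. -/

set_option autoImplicit false

namespace Pool.Agent.W216.KS

open Finset
open Pool.Agent.H442R2
open Pool.Agent.H442R2.KF
open Pool.Agent.W23.DC
open Pool.Agent.W23.SG
open Pool.Agent.W23.PL
open Pool.Agent.W23.KT
open Pool.Agent.W23.KS
open Pool.Agent.W214.PL (pw hf hf_sum hf_nonneg Fq strip smooth_sum)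
open Pool.Agent.Helper256.KM (mertens_log)

namespace Smok

/-- the conditions on `N` -/
lemma eventually_N (B k u NU NV : ℕ) {c : ℝ} (hc : 0 < c) : ∃ N₀ : ℕ, ∀ N : ℕ, N₀ ≤ N →
    NU ≤ N ∧ NV ≤ N ∧ Real.exp 1 ≤ Real.log N ∧
    Real.log N ^ (B * u) * Real.log N ^ B ≤ (N : ℝ) ^ (1 / 20 : ℝ) ∧
    Real.log N ^ (B + k + 1) * Real.exp u ≤ c * N := by
  obtain ⟨N₁, h⟩ := Pool.Agent.W214.PL.eventually_N B u NU NV hc
  have hlog : Filter.Tendsto (fun N : ℕ => Real.log N) Filter.atTop Filter.atTop :=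
    Real.tendsto_log_atTop.comp tendsto_natCast_atTop_atTop
  have e3 : ∀ᶠ N : ℕ in Filter.atTop, Real.exp 1 ≤ Real.log N :=
    hlog.eventually_ge_atTop _
  have e5 : ∀ᶠ N : ℕ in Filter.atTop, Real.log N ^ (B + k + 1) * Real.exp u ≤ c * N := by
    have h := (isLittleO_log_rpow_rpow_atTop (s := (1 : ℝ)) ((B + k + 1 : ℕ) : ℝ)
      (by norm_num)).bound (c := c * Real.exp (-(u : ℝ))) (by positivity)
    filter_upwards [tendsto_natCast_atTop_atTop.eventually h, e3] with N hN h3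
    have hL : 0 ≤ Real.log (N : ℝ) := (Real.exp_pos 1).le.trans h3
    rw [Real.rpow_natCast, Real.norm_of_nonneg (by positivity),
      Real.norm_of_nonneg (by positivity), Real.rpow_one] at hN
    calc Real.log N ^ (B + k + 1) * Real.exp u ≤ c * Real.exp (-(u : ℝ)) * N * Real.exp u := by
          gcongr
      _ = c * N * (Real.exp (-(u : ℝ)) * Real.exp u) := by ring
      _ = c * N := by rw [← Real.exp_add]; simp
  obtain ⟨N₂, h2⟩ := Filter.eventually_atTop.1 e5
  refine ⟨max N₁ N₂, fun N hN => ?_⟩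
  obtain ⟨a1, a2, a3, a4, _⟩ := h N ((le_max_left _ _).trans hN)
  exact ⟨a1, a2, a3, a4, h2 N ((le_max_right _ _).trans hN)⟩

end Smok

open Smok in
theorem SMOK (hUBSK : St_UBSK) (hVLBK : St_VLBK) : St_SMOK := by
  classical
  intro k M B hk hB ε₁ hε hε1
  obtain ⟨CU, NU, hCU, hU⟩ := hUBSK k M B hk hB ε₁ hε hε1
  obtain ⟨c₂, hc₂, hV⟩ := hVLBK k hk
  obtain ⟨NV, hV⟩ := hV M B hB ε₁ hε hε1
  obtain ⟨CM, hCM⟩ := mertens_log
  refine ⟨CU * Real.exp (16 * (1 + |CM|)) + 1, by positivity, fun u hu => ?_⟩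
  obtain ⟨N₀, hN₀⟩ := eventually_N B k u NU NV hc₂
  refine ⟨N₀, fun N hN S hS F hF => ?_⟩
  obtain ⟨h1, h2, h3, h4, h5⟩ := hN₀ N hN
  have hVN := (hV N h2).1
  have hFo := hS.sys.fo F hF
  set L := Real.log (N : ℝ) with hL
  set V := Vk k (P1 N B ε₁) with hVdef
  set y := L ^ B with hy
  set Z := (N : ℝ) ^ (1 / 20 : ℝ) with hZ
  have he1 : (2 : ℝ) < Real.exp 1 := by
    have := Real.exp_one_gt_d9
    linarith
  have hL2 : 2 < L := lt_of_lt_of_le he1 h3
  have hL0 : 0 < L := by linarith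
  have hlogL : 1 ≤ Real.log L := by
    rw [Real.le_log_iff_exp_le hL0]
    exact h3
  have hy1 : 1 < y := one_lt_pow₀ (by linarith) (by omega)
  have hlogy : 2 ≤ Real.log y := by
    rw [hy, Real.log_pow]
    have : (2 : ℝ) ≤ B := by exact_mod_cast hB
    nlinarith
  set α := 1 / Real.log y with hα
  have hα0 : 0 ≤ α := by positivity
  have hαy : α * Real.log y = 1 := by
    rw [hα]
    field_simp
  have hN0 : (0 : ℝ) < N := by
    rcases Nat.eq_zero_or_pos N with h0 | h0
    · exfalso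
      rw [h0] at hL
      simp at hL
      linarith
    · exact_mod_cast h0
  have hVlow : c₂ / L ^ k ≤ V := by
    refine le_trans ?_ hVN
    rw [div_eq_mul_inv, ← inv_pow]
    apply mul_le_mul_of_nonneg_left _ hc₂.le
    apply pow_le_pow_left₀ (by positivity)
    rw [inv_eq_one_div, div_le_div_iff₀ hL0 (by positivity)]
    have hB1 : (2 : ℝ) ≤ B := by exact_mod_cast hB
    have : ε₁ ≤ B * Real.log L := by nlinarith
    nlinarith
  have hV0 : 0 < V := lt_of_lt_of_le (by positivity) hVlow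
  -- the set
  set A := (Icc 1 N).filter (fun p : ℕ => p.Prime ∧ lf F p ≠ 0 ∧
      xx (PK N B ε₁ S) (Fp S p) = 1 ∧
      ∃ m : ℕ, m ∣ (lf F p).natAbs ∧ (∀ l : ℕ, l.Prime → l ∣ m → (l : ℝ) < y) ∧
      L ^ (B * u) < m) with hA
  have hsplit : (A.card : ℝ) = ((A.filter (fun p : ℕ => (p : ℝ) < y)).card : ℝ) +
      ((A.filter (fun p : ℕ => ¬ (p : ℝ) < y)).card : ℝ) := by
    rw [← Nat.cast_add, Finset.card_filter_add_card_filter_not]
  -- small primes
  have hsmall : ((A.filter (fun p : ℕ => (p : ℝ) < y)).card : ℝ) ≤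
      Real.exp (-(u : ℝ)) * V * (N / L) := by
    have c1 : (A.filter (fun p : ℕ => (p : ℝ) < y)).card ≤ ⌊y⌋₊ := by
      have : A.filter (fun p : ℕ => (p : ℝ) < y) ⊆ Icc 1 ⌊y⌋₊ := by
        intro p hp
        rw [Finset.mem_filter] at hp
        have hp1 := (Finset.mem_Icc.1 (Finset.mem_filter.1 hp.1).1).1
        exact Finset.mem_Icc.2 ⟨hp1, Nat.le_floor hp.2.le⟩
      simpa using Finset.card_le_card this
    have c2 : ((A.filter (fun p : ℕ => (p : ℝ) < y)).card : ℝ) ≤ y :=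
      (Nat.cast_le.2 c1).trans (Nat.floor_le (by linarith))
    refine c2.trans ?_
    have c3 : y ≤ Real.exp (-(u : ℝ)) * (c₂ / L ^ k) * (N / L) := by
      have e1 : Real.exp (-(u : ℝ)) * (c₂ / L ^ k) * (N / L) =
          Real.exp (-(u : ℝ)) * (c₂ * N) / L ^ (k + 1) := by
        rw [pow_succ]
        field_simp
      rw [e1, le_div_iff₀ (by positivity)]
      have e2 : y * L ^ (k + 1) = Real.exp (-(u : ℝ)) * (L ^ (B + k + 1) * Real.exp u) := by
        rw [show Real.exp (-(u : ℝ)) * (L ^ (B + k + 1) * Real.exp u) =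
          L ^ (B + k + 1) * (Real.exp (-(u : ℝ)) * Real.exp u) by ring, ← Real.exp_add]
        rw [hy, ← pow_add, ← add_assoc]
        simp
      rw [e2]
      gcongr
    refine c3.trans ?_
    gcongr
  -- large primes
  set T := (Icc 1 ⌊Z⌋₊).filter (fun d : ℕ => (∀ l : ℕ, l.Prime → l ∣ d → (l : ℝ) < y) ∧
    Int.gcd F.1 d = 1 ∧ Nat.Coprime F.2 d) with hT
  have hZy : y ^ u * y ≤ Z := by
    have : y ^ u * y = L ^ (B * u) * L ^ B := by
      rw [hy, ← pow_mul]
    rw [this]
    exact h4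
  have hpt : ∀ p ∈ A.filter (fun p : ℕ => ¬ (p : ℝ) < y),
      (1 : ℝ) ≤ Real.exp (-(u : ℝ)) * ∑ d ∈ T, if (d : ℤ) ∣ lf F p then hf α d else 0 := by
    intro p hp
    rw [Finset.mem_filter, hA, Finset.mem_filter] at hp
    obtain ⟨⟨hpN, hpp, hpa, hxx, m, hm, hms, hmu⟩, hpy⟩ := hp
    rw [pow_mul] at hmu
    obtain ⟨m', hm'm, hwm', hm'Z⟩ := strip (one_le_pow₀ hy1.le) (by linarith) hZy m hms hmu
    have hm's : ∀ l : ℕ, l.Prime → l ∣ m' → (l : ℝ) < y := fun l hl h => hms l hl (h.trans hm'm)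
    have hm'a : (m' : ℤ) ∣ lf F p := by
      exact Int.natCast_dvd.2 (hm'm.trans hm)
    have hm'0 : m' ≠ 0 := by
      rintro rfl
      have : (0 : ℝ) < y ^ u := by positivity
      push_cast at hwm'
      linarith
    have hm'pos : (0 : ℝ) < m' := by exact_mod_cast Nat.pos_of_ne_zero hm'0
    -- a prime dividing `m'` and `b`
    have hnb : ∀ l : ℕ, l.Prime → (l : ℤ) ∣ F.1 → ¬ l ∣ F.2 := by
      intro l hl g1 g2
      have : l ∣ Int.gcd F.1 F.2 := by
        rw [Int.dvd_gcd_iff] 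
        exact ⟨g1, Int.natCast_dvd_natCast.2 g2⟩
      rw [hFo.cop] at this
      exact hl.one_lt.ne' (Nat.dvd_one.1 this)
    have hcop2 : Nat.Coprime F.2 m' := by
      by_contra hne
      obtain ⟨l, hl, g1, g2⟩ := Nat.Prime.not_coprime_iff_dvd.1 hne
      have l2 : (l : ℤ) ∣ lf F p := (Int.natCast_dvd_natCast.2 g2).trans hm'a
      have l3 : (l : ℤ) ∣ (F.2 : ℤ) * p := (Int.natCast_dvd_natCast.2 g1).mul_right _
      have l4 : (l : ℤ) ∣ F.1 := by
        have := dvd_sub l2 l3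
        unfold lf at this
        simpa using this
      exact hnb l hl l4 g1
    have hcop : Int.gcd F.1 m' = 1 := by
      by_contra hne
      obtain ⟨l, hl, hlg⟩ := Nat.exists_prime_and_dvd hne
      have l1 : (l : ℤ) ∣ F.1 := (Int.natCast_dvd_natCast.2 hlg).trans (Int.gcd_dvd_left _ _)
      have l2 : (l : ℤ) ∣ m' := (Int.natCast_dvd_natCast.2 hlg).trans (Int.gcd_dvd_right _ _)
      have l3 : (l : ℤ) ∣ (F.2 : ℤ) * p := by
        have := dvd_sub (l2.trans hm'a) l1
        unfold lf at this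
        simpa using this
      have l3' : l ∣ F.2 * p := by exact_mod_cast l3
      have l4 : l = p := by
        rcases hl.dvd_mul.1 l3' with h | h
        · exact absurd h (hnb l hl l1)
        · exact (Nat.prime_dvd_prime_iff_eq hl hpp).1 h
      have l5 := hm's l hl (Int.natCast_dvd_natCast.1 l2)
      rw [l4] at l5
      exact hpy l5
    have hdiv : (m'.divisors) ⊆ T := by
      intro d hd
      have hdm := Nat.dvd_of_mem_divisors hd
      rw [hT, Finset.mem_filter, Finset.mem_Icc]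
      refine ⟨⟨Nat.pos_of_mem_divisors hd, Nat.le_floor ?_⟩, fun l hl h => hm's l hl (h.trans hdm),
        ?_, hcop2.coprime_dvd_right hdm⟩
      · have : (d : ℝ) ≤ m' := by exact_mod_cast Nat.le_of_dvd (Nat.pos_of_ne_zero hm'0) hdm
        linarith
      · have : Int.gcd F.1 d ∣ Int.gcd F.1 m' :=
          Int.gcd_dvd_gcd_of_dvd_right _ (Int.natCast_dvd_natCast.2 hdm)
        rw [hcop] at this
        exact Nat.dvd_one.1 this
    have hsum : (m' : ℝ) ^ α ≤ ∑ d ∈ T, if (d : ℤ) ∣ lf F p then hf α d else 0 := by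
      rw [← hf_sum α hm'0]
      calc ∑ d ∈ m'.divisors, hf α d
          = ∑ d ∈ m'.divisors, if (d : ℤ) ∣ lf F p then hf α d else 0 := by
            refine Finset.sum_congr rfl fun d hd => ?_
            rw [if_pos]
            exact (Int.natCast_dvd_natCast.2 (Nat.dvd_of_mem_divisors hd)).trans hm'a
        _ ≤ _ := by
            refine Finset.sum_le_sum_of_subset_of_nonneg hdiv fun d _ _ => ?_
            split_ifs
            · exact hf_nonneg hα0 d
            · exact le_rfl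
    have hbig : Real.exp u ≤ (m' : ℝ) ^ α := by
      rw [Real.rpow_def_of_pos hm'pos]
      apply Real.exp_le_exp.2
      have : Real.log (y ^ u) ≤ Real.log m' := Real.log_le_log (by positivity) hwm'.le
      rw [Real.log_pow] at this
      calc (u : ℝ) = u * Real.log y * α := by rw [mul_assoc, mul_comm (Real.log y), hαy, mul_one]
        _ ≤ Real.log m' * α := by gcongr
    calc (1 : ℝ) = Real.exp (-(u : ℝ)) * Real.exp u := by rw [← Real.exp_add]; simp
      _ ≤ Real.exp (-(u : ℝ)) * ∑ d ∈ T, if (d : ℤ) ∣ lf F p then hf α d else 0 := by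
          gcongr
          exact hbig.trans hsum
  have hlarge : ((A.filter (fun p : ℕ => ¬ (p : ℝ) < y)).card : ℝ) ≤
      CU * Real.exp (16 * (1 + |CM|)) * (Real.exp (-(u : ℝ)) * V * (N / L)) := by
    set A2 := A.filter (fun p : ℕ => ¬ (p : ℝ) < y) with hA2
    have d1 : (A2.card : ℝ) ≤ ∑ p ∈ A2, Real.exp (-(u : ℝ)) *
        ∑ d ∈ T, if (d : ℤ) ∣ lf F p then hf α d else 0 := by
      rw [Finset.card_eq_sum_ones]
      push_cast
      exact Finset.sum_le_sum hpt
    have d2 : ∑ p ∈ A2, Real.exp (-(u : ℝ)) *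
        ∑ d ∈ T, (if (d : ℤ) ∣ lf F p then hf α d else 0) =
        Real.exp (-(u : ℝ)) * ∑ d ∈ T, hf α d *
          ((A2.filter (fun p : ℕ => (d : ℤ) ∣ lf F p)).card : ℝ) := by
      rw [← Finset.mul_sum, Finset.sum_comm]
      congr 1
      refine Finset.sum_congr rfl fun d _ => ?_
      rw [← Finset.sum_filter, Finset.sum_const, nsmul_eq_mul, mul_comm]
    have d3 : ∀ d ∈ T, hf α d * ((A2.filter (fun p : ℕ => (d : ℤ) ∣ lf F p)).card : ℝ) ≤
        CU * V * (N / L) * Fq α d := by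
      intro d hd
      rw [hT, Finset.mem_filter, Finset.mem_Icc] at hd
      obtain ⟨⟨hd1, hdZ⟩, hds, hdg, hdb⟩ := hd
      have hdZ' : (d : ℝ) ≤ Z := by
        have h0 : (d : ℝ) ≤ (⌊Z⌋₊ : ℝ) := by exact_mod_cast hdZ
        exact h0.trans (Nat.floor_le (by positivity))
      have hUd := hU N h1 S hS F hF d hd1 hdZ' hdg hdb
      have hc : ((A2.filter (fun p : ℕ => (d : ℤ) ∣ lf F p)).card : ℝ) ≤
          CU * (N / (Nat.totient d * L)) * V := by
        refine le_trans (Nat.cast_le.2 (Finset.card_le_card ?_)) hUd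
        intro p hp
        rw [Finset.mem_filter, hA2, Finset.mem_filter, hA, Finset.mem_filter] at hp
        obtain ⟨⟨⟨hpN, hpp, hpa, hxx, _⟩, _⟩, hpd⟩ := hp
        rw [Finset.mem_filter]
        exact ⟨hpN, hpp, hpd, hxx⟩
      have htot : (0 : ℝ) < (Nat.totient d : ℝ) := by
        exact_mod_cast Nat.totient_pos.2 hd1
      calc hf α d * ((A2.filter (fun p : ℕ => (d : ℤ) ∣ lf F p)).card : ℝ)
          ≤ hf α d * (CU * (N / (Nat.totient d * L)) * V) :=
            mul_le_mul_of_nonneg_left hc (hf_nonneg hα0 d)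
        _ = CU * V * (N / L) * Fq α d := by
            unfold Fq
            field_simp
    have d4 : ∑ d ∈ T, Fq α d ≤ Real.exp (16 * (1 + |CM|)) := by
      refine smooth_sum hCM hlogy hy1 T fun d hd => ?_
      rw [hT, Finset.mem_filter, Finset.mem_Icc] at hd
      exact ⟨by omega, hd.2.1⟩
    calc (A2.card : ℝ) ≤ Real.exp (-(u : ℝ)) *
          ∑ d ∈ T, hf α d * ((A2.filter (fun p : ℕ => (d : ℤ) ∣ lf F p)).card : ℝ) := by
          rw [← d2]
          exact d1
      _ ≤ Real.exp (-(u : ℝ)) * ∑ d ∈ T, CU * V * (N / L) * Fq α d := by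
          exact mul_le_mul_of_nonneg_left (Finset.sum_le_sum d3) (Real.exp_nonneg _)
      _ = Real.exp (-(u : ℝ)) * (CU * V * (N / L) * ∑ d ∈ T, Fq α d) := by
          rw [← Finset.mul_sum]
      _ ≤ Real.exp (-(u : ℝ)) * (CU * V * (N / L) * Real.exp (16 * (1 + |CM|))) := by
          gcongr
      _ = _ := by ring
  rw [hsplit]
  calc _ ≤ Real.exp (-(u : ℝ)) * V * (N / L) +
        CU * Real.exp (16 * (1 + |CM|)) * (Real.exp (-(u : ℝ)) * V * (N / L)) :=
        add_le_add hsmall hlarge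
    _ = _ := by ring

end Pool.Agent.W216.KS
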