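import Pool.Agent.W23.KS.Defs
import Pool.Agent.W655.PL.VLB

/-! KS-VLBK (owner helper23): Mertens products with weights `k/p`. -/

set_option autoImplicit false

namespace Pool.Agent.W216.KS

open Finset
open Pool.Agent.H442R2
open Pool.Agent.H442R2.KF
open Pool.Agent.W23.DC
open Pool.Agent.W23.SG
open Pool.Agent.W23.PL
open Pool.Agent.W23.KT
open Pool.Agent.W23.KS

namespace Vlbk

/-- comparison with the `k`-th power of the product for `k = 1` -/
theorem Vk_bounds (k : ℕ) (P : Finset ℕ) (hP : ∀ p ∈ P, 2 ≤ p)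
    (hk : ∀ p ∈ P, 2 * (k : ℝ) ≤ (p : ℝ)) :
    Real.exp (-(2 * (k : ℝ) ^ 2)) * VV P ^ k ≤ Vk k P ∧ Vk k P ≤ VV P ^ k := by
  obtain ⟨_, hV2⟩ := Pool.Agent.W655.PL.Vlb.VV_bounds P hP
  have hV0 : 0 ≤ VV P := by
    unfold VV
    refine Finset.prod_nonneg fun p hp => ?_
    have h2 : (2 : ℝ) ≤ p := by exact_mod_cast hP p hp
    have : 1 / (p : ℝ) ≤ 1 / 2 := one_div_le_one_div_of_le (by norm_num) h2
    linarith
  constructor
  · have h1 : ∀ p ∈ P, Real.exp (-(k * (1 / (p : ℝ))) - 2 * ((k : ℝ) ^ 2 * (1 / (p : ℝ) ^ 2))) ≤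
        1 - (k : ℝ) / p := by
      intro p hp
      have h2 : (2 : ℝ) ≤ p := by exact_mod_cast hP p hp
      have h3 := hk p hp
      rcases Nat.eq_zero_or_pos k with h0 | h0
      · subst h0
        simp
      have hk0 : (0 : ℝ) < k := by exact_mod_cast h0
      set x := (k : ℝ) / p with hx
      have hx0 : 0 < x := by positivity
      have hx1 : x ≤ 1 / 2 := by
        rw [hx, div_le_iff₀ (by linarith)]
        linarith
      have e1 : (k : ℝ) * (1 / (p : ℝ)) = x := by rw [hx]; ring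
      have e2 : (k : ℝ) ^ 2 * (1 / (p : ℝ) ^ 2) = x ^ 2 := by rw [hx, div_pow]; ring
      rw [e1, e2]
      have h3 : -x - 2 * x ^ 2 ≤ Real.log (1 - x) := by
        have h5 := Real.abs_log_sub_add_sum_range_le (x := x) (by rw [abs_of_pos hx0]; linarith) 1
        simp only [Finset.sum_range_one, Nat.cast_zero, zero_add, pow_one, div_one,
          abs_of_pos hx0] at h5
        have h6 := (abs_le.1 h5).1
        have h7 : x ^ (1 + 1) / (1 - x) ≤ 2 * x ^ 2 := by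
          rw [div_le_iff₀ (by linarith)]
          have : 0 ≤ x ^ 2 := sq_nonneg x
          have e : x ^ (1 + 1) = x ^ 2 := by norm_num
          rw [e]
          nlinarith
        linarith
      calc Real.exp (-x - 2 * x ^ 2) ≤ Real.exp (Real.log (1 - x)) := Real.exp_le_exp.2 h3
        _ = 1 - x := Real.exp_log (by linarith)
    have h2 : Real.exp (∑ p ∈ P, (-(k * (1 / (p : ℝ))) - 2 * ((k : ℝ) ^ 2 * (1 / (p : ℝ) ^ 2)))) ≤
        Vk k P := by
      rw [Real.exp_sum]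
      exact Finset.prod_le_prod (fun _ _ => (Real.exp_pos _).le) h1
    refine le_trans ?_ h2
    have h3 : VV P ^ k ≤ Real.exp (-(∑ p ∈ P, 1 / (p : ℝ))) ^ k := pow_le_pow_left₀ hV0 hV2 k
    rw [← Real.exp_nat_mul] at h3
    calc Real.exp (-(2 * (k : ℝ) ^ 2)) * VV P ^ k ≤
          Real.exp (-(2 * (k : ℝ) ^ 2)) * Real.exp (k * -(∑ p ∈ P, 1 / (p : ℝ))) := by
          gcongr
      _ = Real.exp (-(2 * (k : ℝ) ^ 2) + k * -(∑ p ∈ P, 1 / (p : ℝ))) := by rw [Real.exp_add]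
      _ ≤ _ := by
          apply Real.exp_le_exp.2
          rw [Finset.sum_sub_distrib, Finset.sum_neg_distrib, ← Finset.mul_sum, ← Finset.mul_sum,
            ← Finset.mul_sum]
          have := Pool.Agent.W655.PL.Vlb.sum_sq P hP
          have h4 : (k : ℝ) ^ 2 * ∑ p ∈ P, 1 / (p : ℝ) ^ 2 ≤ (k : ℝ) ^ 2 * 1 := by
            gcongr
          linarith
  · unfold Vk VV
    rw [← Finset.prod_pow]
    refine Finset.prod_le_prod (fun p hp => ?_) fun p hp => ?_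
    · have h2 : (2 : ℝ) ≤ p := by exact_mod_cast hP p hp
      have h3 := hk p hp
      have : (k : ℝ) / p ≤ 1 / 2 := by
        rw [div_le_iff₀ (by linarith)]
        linarith
      linarith
    · have h2 : (2 : ℝ) ≤ p := by exact_mod_cast hP p hp
      have h4 : 1 / (p : ℝ) ≤ 1 / 2 := one_div_le_one_div_of_le (by norm_num) h2
      have h3 := one_add_mul_le_pow (a := -(1 / (p : ℝ))) (by linarith) k
      have e1 : 1 + (k : ℝ) * -(1 / (p : ℝ)) = 1 - (k : ℝ) / p := by ring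
      have e2 : 1 + -(1 / (p : ℝ)) = 1 - 1 / (p : ℝ) := by ring
      rw [e1, e2] at h3
      exact h3

/-- Weierstrass -/
theorem one_sub_sum_le (P : Finset ℕ) (f : ℕ → ℝ) (h0 : ∀ p ∈ P, 0 ≤ f p) (h1 : ∀ p ∈ P, f p ≤ 1) :
    1 - ∑ p ∈ P, f p ≤ ∏ p ∈ P, (1 - f p) ∧ ∏ p ∈ P, (1 - f p) ≤ 1 ∧
      0 ≤ ∏ p ∈ P, (1 - f p) := by
  induction P using Finset.induction_on with
  | empty => simp
  | insert a s ha ih =>
    obtain ⟨i1, i2, i3⟩ := ih (fun p hp => h0 p (mem_insert_of_mem hp))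
      (fun p hp => h1 p (mem_insert_of_mem hp))
    rw [Finset.sum_insert ha, Finset.prod_insert ha]
    have a0 := h0 a (mem_insert_self a s)
    have a1 := h1 a (mem_insert_self a s)
    refine ⟨?_, ?_, ?_⟩
    · nlinarith
    · nlinarith
    · exact mul_nonneg (by linarith) i3

/-- the number of prime factors -/
theorem omega_le (m : ℕ) (hm : m ≠ 0) : (m.primeFactors.card : ℝ) ≤ 2 * Real.log m := by
  have h1 : (2 : ℝ) ^ m.primeFactors.card ≤ m := by
    calc (2 : ℝ) ^ m.primeFactors.card = ∏ _p ∈ m.primeFactors, (2 : ℝ) := by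
          rw [prod_const]
      _ ≤ ∏ p ∈ m.primeFactors, (p : ℝ) :=
          prod_le_prod (fun _ _ => by positivity) fun p hp => by
            exact_mod_cast (Nat.prime_of_mem_primeFactors hp).two_le
      _ = ((∏ p ∈ m.primeFactors, p : ℕ) : ℝ) := by push_cast; rfl
      _ ≤ (m : ℝ) := by
          exact_mod_cast Nat.le_of_dvd (Nat.pos_of_ne_zero hm) (Nat.prod_primeFactors_dvd m)
  have h2 := Real.log_le_log (by positivity) h1
  rw [Real.log_pow] at h2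
  have h3 := Real.log_two_gt_d9
  have h4 : (0 : ℝ) ≤ m.primeFactors.card := Nat.cast_nonneg _
  nlinarith

/-- the bad primes -/
noncomputable def bad (S : Finset (ℤ × ℕ)) : Finset ℕ :=
  (S.biUnion fun L => L.2.primeFactors) ∪
    ((S ×ˢ S).filter (fun x => x.1 ≠ x.2)).biUnion fun x =>
      (x.1.1 * x.2.2 - x.2.1 * x.1.2).natAbs.primeFactors

/-- two different forms have a nonzero determinant -/
theorem det_ne {M N : ℕ} {L L' : ℤ × ℕ} (h : FoM M N L) (h' : FoM M N L') (hne : L ≠ L') :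
    L.1 * L'.2 - L'.1 * L.2 ≠ 0 := by
  intro h0
  have h1 : L.1 * L'.2 = L'.1 * L.2 := by linarith
  have c1 : IsCoprime L.1 (L.2 : ℤ) := Int.isCoprime_iff_gcd_eq_one.2 h.cop
  have c2 : IsCoprime L'.1 (L'.2 : ℤ) := Int.isCoprime_iff_gcd_eq_one.2 h'.cop
  have d1 : (L.2 : ℤ) ∣ (L'.2 : ℤ) := c1.symm.dvd_of_dvd_mul_left (h1 ▸ dvd_mul_left _ _)
  have d2 : (L'.2 : ℤ) ∣ (L.2 : ℤ) := c2.symm.dvd_of_dvd_mul_left (h1 ▸ dvd_mul_left _ _)
  have e1 : L.2 = L'.2 := Nat.dvd_antisymm (Int.natCast_dvd_natCast.1 d1)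
    (Int.natCast_dvd_natCast.1 d2)
  have hb : (0 : ℤ) < (L'.2 : ℤ) := by exact_mod_cast h'.b1
  have e2 : L.1 = L'.1 := by
    rw [e1] at h1
    exact mul_right_cancel₀ hb.ne' h1
  exact hne (Prod.ext e2 e1)

theorem gp_of_not_bad {k M N : ℕ} {S : Finset (ℤ × ℕ)} (hS : Sys k M N S) {p : ℕ} (hp : p.Prime)
    (h : p ∉ bad S) : gp S p := by
  unfold bad at h
  rw [mem_union, not_or, mem_biUnion, mem_biUnion] at h
  obtain ⟨h1, h2⟩ := h
  push Not at h1 h2
  refine ⟨fun L hL hd => ?_, fun L hL L' hL' hne hd => ?_⟩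
  · refine h1 L hL (Nat.mem_primeFactors.2 ⟨hp, hd, ?_⟩)
    have := (hS.fo L hL).b1
    omega
  · refine h2 (L, L') (mem_filter.2 ⟨mem_product.2 ⟨hL, hL'⟩, hne⟩)
      (Nat.mem_primeFactors.2 ⟨hp, Int.natCast_dvd.1 hd, ?_⟩)
    exact Int.natAbs_ne_zero.2 (det_ne (hS.fo L hL) (hS.fo L' hL') hne)

theorem bad_card {k M N : ℕ} {S : Finset (ℤ × ℕ)} (hS : Sys k M N S) (hN : 2 ≤ N) :
    ((bad S).card : ℝ) ≤ (2 * k * M + 2 * k ^ 2 * (2 * M + 1)) * Real.log N := by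
  have hN0 : (0 : ℝ) < N := by exact_mod_cast (by omega : 0 < N)
  have hN2 : (2 : ℝ) ≤ N := by exact_mod_cast hN
  have hl : 0 ≤ Real.log N := Real.log_nonneg (by linarith)
  have h1 : (bad S).card ≤ ∑ L ∈ S, L.2.primeFactors.card +
      ∑ x ∈ (S ×ˢ S).filter (fun x => x.1 ≠ x.2),
        (x.1.1 * x.2.2 - x.2.1 * x.1.2).natAbs.primeFactors.card :=
    (card_union_le _ _).trans (add_le_add card_biUnion_le card_biUnion_le)
  have h2 : ((bad S).card : ℝ) ≤ ∑ L ∈ S, (L.2.primeFactors.card : ℝ) +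
      ∑ x ∈ (S ×ˢ S).filter (fun x => x.1 ≠ x.2),
        ((x.1.1 * x.2.2 - x.2.1 * x.1.2).natAbs.primeFactors.card : ℝ) := by
    exact_mod_cast h1
  have h3 : ∀ L ∈ S, (L.2.primeFactors.card : ℝ) ≤ 2 * (M * Real.log N) := by
    intro L hL
    have hL1 := hS.fo L hL
    have hb : (0 : ℝ) < (L.2 : ℝ) := by exact_mod_cast hL1.b1
    have := omega_le L.2 (by have := hL1.b1; omega)
    have h4 : Real.log (L.2 : ℝ) ≤ Real.log ((N : ℝ) ^ M) := Real.log_le_log hb hL1.b2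
    rw [Real.log_pow] at h4
    linarith
  have h5 : ∀ x ∈ (S ×ˢ S).filter (fun x => x.1 ≠ x.2),
      ((x.1.1 * x.2.2 - x.2.1 * x.1.2).natAbs.primeFactors.card : ℝ) ≤
        2 * ((2 * M + 1) * Real.log N) := by
    rintro ⟨L, L'⟩ hx
    rw [mem_filter, mem_product] at hx
    obtain ⟨⟨hL, hL'⟩, hne⟩ := hx
    simp only at hL hL' hne ⊢
    have f1 := hS.fo L hL
    have f2 := hS.fo L' hL'
    have hd := det_ne f1 f2 hne
    have h6 := omega_le (L.1 * L'.2 - L'.1 * L.2).natAbs (Int.natAbs_ne_zero.2 hd)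
    have h7 : (((L.1 * L'.2 - L'.1 * L.2).natAbs : ℕ) : ℝ) ≤ (N : ℝ) ^ (2 * M + 1) := by
      rw [Nat.cast_natAbs]
      push_cast
      have g1 : |(L.1 : ℝ) * L'.2 - L'.1 * L.2| ≤ |(L.1 : ℝ) * L'.2| + |(L'.1 : ℝ) * L.2| :=
        abs_sub _ _
      have g2 : |(L.1 : ℝ) * L'.2| ≤ (N : ℝ) ^ M * (N : ℝ) ^ M := by
        rw [abs_mul, abs_of_nonneg (show (0 : ℝ) ≤ (L'.2 : ℝ) from Nat.cast_nonneg _)]
        exact mul_le_mul f1.a f2.b2 (Nat.cast_nonneg _) (by positivity)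
      have g3 : |(L'.1 : ℝ) * L.2| ≤ (N : ℝ) ^ M * (N : ℝ) ^ M := by
        rw [abs_mul, abs_of_nonneg (show (0 : ℝ) ≤ (L.2 : ℝ) from Nat.cast_nonneg _)]
        exact mul_le_mul f2.a f1.b2 (Nat.cast_nonneg _) (by positivity)
      have g4 : (N : ℝ) ^ (2 * M + 1) = N * ((N : ℝ) ^ M * (N : ℝ) ^ M) := by ring
      rw [g4]
      have g5 : 0 ≤ (N : ℝ) ^ M * (N : ℝ) ^ M := by positivity
      nlinarith
    have h8 : (0 : ℝ) < (((L.1 * L'.2 - L'.1 * L.2).natAbs : ℕ) : ℝ) := by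
      exact_mod_cast Int.natAbs_pos.2 hd
    have h9 := Real.log_le_log h8 h7
    rw [Real.log_pow] at h9
    push_cast at h9
    linarith
  have hc1 : (S.card : ℝ) = k := by rw [hS.card]
  have hc2 : (((S ×ˢ S).filter (fun x => x.1 ≠ x.2)).card : ℝ) ≤ (k : ℝ) ^ 2 := by
    have : ((S ×ˢ S).filter (fun x => x.1 ≠ x.2)).card ≤ k * k := by
      refine (card_filter_le _ _).trans ?_
      rw [card_product, hS.card]
    rw [sq]
    exact_mod_cast this
  have h10 := sum_le_sum h3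
  have h11 := sum_le_sum h5
  rw [sum_const, nsmul_eq_mul, hc1] at h10
  rw [sum_const, nsmul_eq_mul] at h11
  have h12 : (((S ×ˢ S).filter (fun x => x.1 ≠ x.2)).card : ℝ) * (2 * ((2 * M + 1) * Real.log N)) ≤
      (k : ℝ) ^ 2 * (2 * ((2 * M + 1) * Real.log N)) :=
    mul_le_mul_of_nonneg_right hc2 (by positivity)
  calc ((bad S).card : ℝ) ≤ _ := h2
    _ ≤ k * (2 * (M * Real.log N)) + (k : ℝ) ^ 2 * (2 * ((2 * M + 1) * Real.log N)) :=
        add_le_add h10 (h11.trans h12)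
    _ = _ := by ring

end Vlbk

open Vlbk in
theorem VLBK : St_VLBK := by
  classical
  intro k hk
  obtain ⟨c, hc, hV⟩ := Pool.Agent.W655.PL.VLB
  have hE : Real.exp (-(2 * (k : ℝ) ^ 2)) ≤ 1 := Real.exp_le_one_iff.2 (by nlinarith [sq_nonneg (k : ℝ)])
  have hE0 := Real.exp_pos (-(2 * (k : ℝ) ^ 2))
  refine ⟨Real.exp (-(2 * (k : ℝ) ^ 2)) * c ^ k, by positivity, ?_⟩
  intro M B hB ε₁ hε hε1
  obtain ⟨N₁, hN₁⟩ := hV B (by omega) ε₁ hε hε1
  set K : ℝ := (k : ℝ) * (2 * k * M + 2 * k ^ 2 * (2 * M + 1)) with hK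
  have hK0 : 0 ≤ K := by positivity
  refine ⟨max N₁ (max 3 ⌈Real.exp (2 * K + 2 * k + 2)⌉₊), ?_⟩
  intro N hN
  have hN1 : N₁ ≤ N := (le_max_left _ _).trans hN
  have hN3 : 3 ≤ N := (le_max_left _ _).trans ((le_max_right _ _).trans hN)
  have hN4 : Real.exp (2 * K + 2 * k + 2) ≤ (N : ℝ) :=
    Nat.ceil_le.1 ((le_max_right _ _).trans ((le_max_right _ _).trans hN))
  have hNR : (3 : ℝ) ≤ N := by exact_mod_cast hN3
  have hN0 : (0 : ℝ) < N := by linarith
  have hlog : 2 * K + 2 * k + 2 ≤ Real.log N := (Real.le_log_iff_exp_le hN0).2 hN4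
  have hk0 : (0 : ℝ) ≤ k := Nat.cast_nonneg k
  have hlog1 : 1 ≤ Real.log N := by linarith
  have hy2 : Real.log N ^ 2 ≤ Real.log N ^ B := pow_le_pow_right₀ hlog1 hB
  have hy : 2 * (k : ℝ) ≤ Real.log N ^ B := by nlinarith
  have hmem : ∀ p ∈ P1 N B ε₁, p.Prime ∧ Real.log N ^ B ≤ (p : ℝ) := by
    intro p hp
    unfold P1 at hp
    rw [mem_filter] at hp
    exact ⟨hp.2.1, hp.2.2.1⟩
  obtain ⟨hb1, hb2⟩ := Vk_bounds k (P1 N B ε₁) (fun p hp => (hmem p hp).1.two_le)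
    (fun p hp => hy.trans (hmem p hp).2)
  obtain ⟨hv1, hv2⟩ := hN₁ N hN1
  set X := B * Real.log (Real.log N) / (ε₁ * Real.log N) with hX
  have hX0 : 0 ≤ X := by
    have : 0 ≤ Real.log (Real.log N) := Real.log_nonneg hlog1
    positivity
  refine ⟨?_, ?_, ?_⟩
  · calc Real.exp (-(2 * (k : ℝ) ^ 2)) * c ^ k * X ^ k =
        Real.exp (-(2 * (k : ℝ) ^ 2)) * (c * X) ^ k := by rw [mul_pow]; ring
      _ ≤ Real.exp (-(2 * (k : ℝ) ^ 2)) * VV (P1 N B ε₁) ^ k := by gcongr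
      _ ≤ _ := hb1
  · have hVV0 : 0 ≤ VV (P1 N B ε₁) := le_trans (by positivity) hv1
    calc Vk k (P1 N B ε₁) ≤ VV (P1 N B ε₁) ^ k := hb2
      _ ≤ (1 / c * X) ^ k := by gcongr
      _ = 1 / c ^ k * X ^ k := by rw [mul_pow, div_pow, one_pow]
      _ ≤ 1 / (Real.exp (-(2 * (k : ℝ) ^ 2)) * c ^ k) * X ^ k := by
          apply mul_le_mul_of_nonneg_right _ (by positivity)
          apply one_div_le_one_div_of_le (by positivity)
          have : 0 < c ^ k := by positivity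
          nlinarith
  · intro S hS
    have hsplit : Vk k (P1 N B ε₁) = Vk k (PK N B ε₁ S) *
        Vk k ((P1 N B ε₁).filter (fun p => ¬ gp S p)) := by
      unfold Vk PK
      rw [← Finset.prod_filter_mul_prod_filter_not (P1 N B ε₁) (fun p => gp S p)]
    set Q := (P1 N B ε₁).filter (fun p => ¬ gp S p) with hQ
    have hle : ∀ p ∈ P1 N B ε₁, 0 ≤ (k : ℝ) / p ∧ (k : ℝ) / p ≤ 1 := by
      intro p hp
      have h1 := (hmem p hp).2
      have h2 : (0 : ℝ) < p := by exact_mod_cast (hmem p hp).1.pos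
      refine ⟨by positivity, ?_⟩
      rw [div_le_one h2]
      linarith
    have hQ1 : ∀ p ∈ Q, p ∈ P1 N B ε₁ := fun p hp => (mem_filter.1 hp).1
    obtain ⟨w1, w2, w3⟩ := one_sub_sum_le Q (fun p => (k : ℝ) / p)
      (fun p hp => (hle p (hQ1 p hp)).1) (fun p hp => (hle p (hQ1 p hp)).2)
    obtain ⟨_, _, x3⟩ := one_sub_sum_le (PK N B ε₁ S) (fun p => (k : ℝ) / p)
      (fun p hp => (hle p (mem_filter.1 hp).1).1) (fun p hp => (hle p (mem_filter.1 hp).1).2)
    have hVQ : Vk k Q = ∏ p ∈ Q, (1 - (k : ℝ) / p) := rfl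
    have hVP : Vk k (PK N B ε₁ S) = ∏ p ∈ PK N B ε₁ S, (1 - (k : ℝ) / p) := rfl
    rw [← hVQ] at w1 w2 w3
    rw [← hVP] at x3
    have hQbad : Q ⊆ bad S := by
      intro p hp
      by_contra hcon
      exact (mem_filter.1 hp).2 (gp_of_not_bad hS (hmem p (hQ1 p hp)).1 hcon)
    have hcard := (Nat.cast_le (α := ℝ).2 (card_le_card hQbad)).trans (bad_card hS (by omega))
    have hsum : ∑ p ∈ Q, (k : ℝ) / p ≤ 1 / 2 := by
      calc ∑ p ∈ Q, (k : ℝ) / p ≤ ∑ _p ∈ Q, (k : ℝ) / Real.log N ^ 2 := by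
            refine sum_le_sum fun p hp => ?_
            have h1 := (hmem p (hQ1 p hp)).2
            exact div_le_div_of_nonneg_left hk0 (by positivity) (hy2.trans h1)
        _ = Q.card * ((k : ℝ) / Real.log N ^ 2) := by rw [sum_const, nsmul_eq_mul]
        _ ≤ ((2 * k * M + 2 * k ^ 2 * (2 * M + 1)) * Real.log N) * ((k : ℝ) / Real.log N ^ 2) := by
            gcongr
        _ = K / Real.log N := by
            rw [hK]
            field_simp
        _ ≤ 1 / 2 := by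
            rw [div_le_iff₀ (by linarith)]
            linarith
    have hVQ2 : 1 / 2 ≤ Vk k Q := by linarith
    constructor
    · rw [hsplit]
      nlinarith
    · rw [hsplit]
      nlinarith

end Pool.Agent.W216.KS
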